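import Pool.Agent.helper88.T8.Spec

set_option autoImplicit false

namespace Pool.Agent.T8

open Finset NumberField Pool.Agent.helper3.FT Pool.Agent.helper47.RA Pool.Agent.T5 Pool.Agent.T6 Pool.Agent.T7
open scoped nonZeroDivisors

/-- the sum of a multiplicative majorant -/
theorem TE8_gen (hTEA : TEA_stmt) (G : ℕ → ℕ → ℝ) (C₀ x θ : ℝ) (hG : ∀ p a, 0 ≤ G p a) (hC : 0 ≤ C₀) (hx : 1 < x) (hθ0 : 0 ≤ θ)
    (hθ : θ < 1) (h : ∀ p a : ℕ, p.Prime → 1 ≤ a → G p a ≤ C₀ * (((a : ℝ) + 1) * θ ^ a) * (p : ℝ) ^ (-x)) :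
    ∃ C : ℝ, 1 ≤ C ∧ ∀ D : ℕ, ∑ d ∈ Icc 1 D, ∏ p ∈ d.primeFactors, G p (d.factorization p) ≤ C := by
  have hs1 : Summable fun a : ℕ => ((a : ℝ) + 1) * θ ^ a := by
    have h1 := summable_pow_mul_geometric_of_norm_lt_one 1 (show ‖θ‖ < 1 by rwa [Real.norm_of_nonneg hθ0])
    have h2 := summable_geometric_of_lt_one hθ0 hθ
    refine (h1.add h2).congr fun a => ?_
    rw [pow_one]
    ring
  have hs2 : Summable fun n : ℕ => (n : ℝ) ^ (-x) := Real.summable_nat_rpow.2 (by linarith)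
  set S : ℝ := ∑' a : ℕ, ((a : ℝ) + 1) * θ ^ a with hS
  set Z : ℝ := ∑' n : ℕ, (n : ℝ) ^ (-x) with hZ
  have hS0 : 0 ≤ S := tsum_nonneg fun a => by positivity
  have hZ0 : 0 ≤ Z := tsum_nonneg fun a => by positivity
  refine ⟨Real.exp (C₀ * S * Z), Real.one_le_exp (by positivity), fun D => ?_⟩
  refine (hTEA G D hG).trans ?_
  have h1 : ∏ p ∈ (range (D + 1)).filter Nat.Prime, (1 + ∑ a ∈ Icc 1 D, G p a) ≤
      ∏ p ∈ (range (D + 1)).filter Nat.Prime, Real.exp (C₀ * S * (p : ℝ) ^ (-x)) := by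
    refine prod_le_prod (fun p _ => ?_) (fun p hp => ?_)
    · have : 0 ≤ ∑ a ∈ Icc 1 D, G p a := sum_nonneg fun a _ => hG p a
      linarith
    · have hp' := (mem_filter.1 hp).2
      have h2 : ∑ a ∈ Icc 1 D, G p a ≤ C₀ * S * (p : ℝ) ^ (-x) := by
        calc ∑ a ∈ Icc 1 D, G p a ≤ ∑ a ∈ Icc 1 D, C₀ * (((a : ℝ) + 1) * θ ^ a) * (p : ℝ) ^ (-x) :=
              sum_le_sum fun a ha => h p a hp' (mem_Icc.1 ha).1
          _ = C₀ * (∑ a ∈ Icc 1 D, ((a : ℝ) + 1) * θ ^ a) * (p : ℝ) ^ (-x) := by rw [mul_sum, sum_mul]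
          _ ≤ C₀ * S * (p : ℝ) ^ (-x) := by
              refine mul_le_mul_of_nonneg_right (mul_le_mul_of_nonneg_left ?_ hC) (by positivity)
              exact hs1.sum_le_tsum _ fun a _ => by positivity
      have h3 := Real.add_one_le_exp (C₀ * S * (p : ℝ) ^ (-x))
      linarith
  refine h1.trans ?_
  rw [← Real.exp_sum]
  refine Real.exp_le_exp.2 ?_
  rw [← mul_sum]
  refine mul_le_mul_of_nonneg_left ?_ (by positivity)
  exact hs2.sum_le_tsum _ fun a _ => by positivity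

theorem TE8_fac (d : ℕ) (hd : 1 ≤ d) (x : ℝ) (F : ℕ → ℕ → ℝ) : (d : ℝ) ^ x * ∏ p ∈ d.primeFactors, F p (d.factorization p) =
    ∏ p ∈ d.primeFactors, ((((p : ℝ) ^ (d.factorization p)) ^ x) * F p (d.factorization p)) := by
  rw [prod_mul_distrib]
  congr 1
  rw [Real.finsetProd_rpow _ _ (fun i _ => by positivity)]
  congr 1
  have h := Nat.prod_factorization_pow_eq_self (by omega : d ≠ 0)
  conv_lhs => rw [← h]
  rw [Finsupp.prod, Nat.support_factorization]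
  push_cast
  rfl

theorem TE8_two (c : ℝ) (hc : 0 < c) : 0 ≤ (2 : ℝ) ^ (-c) ∧ (2 : ℝ) ^ (-c) < 1 :=
  ⟨by positivity, Real.rpow_lt_one_of_one_lt_of_neg (by norm_num) (by linarith)⟩

/-- from exponents to the majorant -/
theorem TE8_exp (p a : ℕ) (hp : p.Prime) (y x c : ℝ) (hc : 0 < c) (h : y ≤ -x - c * a) : (p : ℝ) ^ y ≤ ((2 : ℝ) ^ (-c)) ^ a * (p : ℝ) ^ (-x) := by
  have hp2 : (2 : ℝ) ≤ p := by exact_mod_cast hp.two_le
  have hp0 : (0 : ℝ) < p := by linarith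
  calc (p : ℝ) ^ y ≤ (p : ℝ) ^ (-(c * a) + -x) := Real.rpow_le_rpow_of_exponent_le (by linarith) (by linarith)
    _ = (p : ℝ) ^ (-(c * a)) * (p : ℝ) ^ (-x) := Real.rpow_add hp0 _ _
    _ ≤ ((2 : ℝ) ^ (-c)) ^ a * (p : ℝ) ^ (-x) := by
        refine mul_le_mul_of_nonneg_right ?_ (by positivity)
        rw [← Real.rpow_natCast ((2 : ℝ) ^ (-c)) a, ← Real.rpow_mul (by norm_num)]
        rw [show -c * (a : ℝ) = -(c * a) by ring]
        exact Real.rpow_le_rpow_of_nonpos (by norm_num) hp2 (by have : 0 ≤ c * a := by positivity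
                                                                linarith)

theorem TE8 (hTEA : TEA_stmt) : TE8_stmt := by
  intro K hK
  obtain ⟨C1, hC1, h1⟩ := TE8_gen hTEA (fun p a => ((p : ℝ) ^ a) ^ (1 / 8 : ℝ) * gg K p a) K (5 / 4) ((2 : ℝ) ^ (-(1 / 16 : ℝ)))
    (fun p a => by unfold gg; positivity) (by linarith) (by norm_num) (TE8_two _ (by norm_num)).1 (TE8_two _ (by norm_num)).2 (by
      intro p a hp ha
      have hp0 : (0 : ℝ) < p := by exact_mod_cast hp.pos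
      have e1 : ((p : ℝ) ^ a) ^ (1 / 8 : ℝ) * gg K p a = K * ((a : ℝ) + 1) * (p : ℝ) ^ ((a : ℝ) * (1 / 8) - ((max 2 ((a + 1) / 2) : ℕ) : ℝ)) := by
        unfold gg
        rw [← Real.rpow_natCast (p : ℝ) a, ← Real.rpow_mul hp0.le, Real.rpow_sub hp0, Real.rpow_natCast]
        ring
      rw [e1]
      have e2 : (a : ℝ) * (1 / 8) - ((max 2 ((a + 1) / 2) : ℕ) : ℝ) ≤ -(5 / 4) - 1 / 16 * a := by
        by_cases h4 : a ≤ 4
        · have e3 : (2 : ℝ) ≤ ((max 2 ((a + 1) / 2) : ℕ) : ℝ) := by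
            have : 2 ≤ max 2 ((a + 1) / 2) := le_max_left _ _
            exact_mod_cast this
          have e4 : (a : ℝ) ≤ 4 := by exact_mod_cast h4
          linarith
        · have e3 : (a : ℝ) ≤ 2 * ((max 2 ((a + 1) / 2) : ℕ) : ℝ) := by
            have : a ≤ 2 * max 2 ((a + 1) / 2) := by omega
            exact_mod_cast this
          have e4 : (4 : ℝ) ≤ a := by
            have : 4 ≤ a := by omega
            exact_mod_cast this
          linarith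
      have e5 := TE8_exp p a hp _ (5 / 4) (1 / 16) (by norm_num) e2
      calc K * ((a : ℝ) + 1) * (p : ℝ) ^ ((a : ℝ) * (1 / 8) - ((max 2 ((a + 1) / 2) : ℕ) : ℝ)) ≤
            K * ((a : ℝ) + 1) * (((2 : ℝ) ^ (-(1 / 16 : ℝ))) ^ a * (p : ℝ) ^ (-(5 / 4 : ℝ))) := mul_le_mul_of_nonneg_left e5 (by positivity)
        _ = _ := by ring)
  obtain ⟨C2, hC2, h2⟩ := TE8_gen hTEA (fun p a => ((p : ℝ) ^ a) ^ (-(11 / 10) : ℝ) * hh K p a) K (21 / 20) ((2 : ℝ) ^ (-(1 / 20 : ℝ)))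
    (fun p a => by unfold hh; positivity) (by linarith) (by norm_num) (TE8_two _ (by norm_num)).1 (TE8_two _ (by norm_num)).2 (by
      intro p a hp ha
      have hp0 : (0 : ℝ) < p := by exact_mod_cast hp.pos
      have e1 : ((p : ℝ) ^ a) ^ (-(11 / 10) : ℝ) * hh K p a = K * ((a : ℝ) + 1) * (p : ℝ) ^ ((a : ℝ) * (-(11 / 10)) + (((if 3 ≤ a then a / 2 else 0) : ℕ) : ℝ)) := by
        unfold hh
        rw [← Real.rpow_natCast (p : ℝ) a, ← Real.rpow_mul hp0.le, Real.rpow_add hp0, Real.rpow_natCast]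
        ring
      rw [e1]
      have e2 : (a : ℝ) * (-(11 / 10)) + (((if 3 ≤ a then a / 2 else 0) : ℕ) : ℝ) ≤ -(21 / 20) - 1 / 20 * a := by
        have ha' : (1 : ℝ) ≤ a := by exact_mod_cast ha
        by_cases h3 : 3 ≤ a
        · rw [if_pos h3]
          have e3 : 2 * ((a / 2 : ℕ) : ℝ) ≤ a := by
            have : 2 * (a / 2) ≤ a := by omega
            exact_mod_cast this
          have e4 : (3 : ℝ) ≤ a := by exact_mod_cast h3
          linarith
        · rw [if_neg h3]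
          push_cast
          linarith
      have e5 := TE8_exp p a hp _ (21 / 20) (1 / 20) (by norm_num) e2
      calc K * ((a : ℝ) + 1) * (p : ℝ) ^ ((a : ℝ) * (-(11 / 10)) + (((if 3 ≤ a then a / 2 else 0) : ℕ) : ℝ)) ≤
            K * ((a : ℝ) + 1) * (((2 : ℝ) ^ (-(1 / 20 : ℝ))) ^ a * (p : ℝ) ^ (-(21 / 20 : ℝ))) := mul_le_mul_of_nonneg_left e5 (by positivity)
        _ = _ := by ring)
  refine ⟨max C1 C2, hC1.trans (le_max_left _ _), fun D => ⟨?_, ?_⟩⟩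
  · refine le_trans (le_of_eq ?_) ((h1 D).trans (le_max_left _ _))
    exact sum_congr rfl fun d hd => TE8_fac d (mem_Icc.1 hd).1 _ (gg K)
  · refine le_trans (le_of_eq ?_) ((h2 D).trans (le_max_right _ _))
    exact sum_congr rfl fun d hd => TE8_fac d (mem_Icc.1 hd).1 _ (hh K)

end Pool.Agent.T8
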